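import Pool.Agent.LSG.Stmts

/-!
# Squad LSG (MP_005a41_gt), row BOX: the boxes are a countable base of clopen sets
-/

set_option autoImplicit false

open MeasureTheory Set Topology

namespace Pool.Agent.LSG.H36

theorem box : BoxStmt := by
  intro G k
  refine ⟨?_, ?_, ?_⟩
  · unfold Ix
    infer_instance
  · intro v
    have hc : Continuous fun p : G × Fin k =>
        (p.2, fun i : Fin v.1.1 => (p.1 : K) (i : ℕ)) := by
      refine Continuous.prodMk continuous_snd (continuous_pi fun i => ?_)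
      exact (continuous_apply (i : ℕ)).comp (continuous_subtype_val.comp continuous_fst)
    have h := (isClopen_discrete ({(v.2, v.1.2)} : Set (Fin k × (Fin v.1.1 → ZMod 2)))).preimage hc
    have he : LSG.box (G := G) v = (fun p : G × Fin k =>
        (p.2, fun i : Fin v.1.1 => (p.1 : K) (i : ℕ))) ⁻¹' {(v.2, v.1.2)} := by
      ext p
      simp only [LSG.box, Set.mem_ofPred_eq, mem_preimage, mem_singleton_iff, Prod.mk.injEq,
        funext_iff]
    rw [he]
    exact h
  · intro U hU p hp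
    obtain ⟨u, w, hu, -, hpu, hpw, hsub⟩ := isOpen_prod_iff.1 hU p.1 p.2 hp
    obtain ⟨W, hW, rfl⟩ := isOpen_induced_iff.1 hu
    obtain ⟨I, V, hV, hI⟩ := isOpen_pi_iff.1 hW (p.1 : K) hpu
    refine ⟨(⟨I.sup id + 1, fun i => (p.1 : K) (i : ℕ)⟩, p.2), ⟨rfl, fun i => rfl⟩, ?_⟩
    rintro q ⟨hq2, hq1⟩
    refine hsub ⟨?_, ?_⟩
    · refine hI fun a ha => ?_
      have hlt : a < I.sup id + 1 := Nat.lt_succ_of_le (Finset.le_sup (f := id) ha)
      have h := hq1 ⟨a, hlt⟩
      have h' : (q.1 : K) a = (p.1 : K) a := h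
      rw [h']
      exact (hV a ha).2
    · have h2 : q.2 = p.2 := hq2
      rw [h2]
      exact hpw

end Pool.Agent.LSG.H36
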